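import Pool.Agent.W617.LG.StmI

/-!
# LG-UNI: uniqueness for linear total differential equations on the punctured space
-/

set_option autoImplicit false

namespace Pool.Agent.W395.LG

open Topology Filter Set Metric
open Pool.Agent.W617.LG

theorem loc {X F : Type} [NormedAddCommGroup X] [NormedSpace ℝ X] [NormedAddCommGroup F]
    [NormedSpace ℝ F] (f : X → F) (L : X → X →L[ℝ] F) (K : X → ℝ) (y₀ : X) (r c : ℝ)
    (hf : ∀ y ∈ closedBall y₀ r, HasFDerivAt f (L y) y ∧ ‖L y‖ ≤ K y * ‖f y‖)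
    (hK : ∀ y ∈ closedBall y₀ r, ‖K y‖ ≤ c) (h0 : f y₀ = 0) : ∀ y ∈ closedBall y₀ r, f y = 0 := by
  intro y hy
  have hr : ‖y - y₀‖ ≤ r := by rwa [mem_closedBall, dist_eq_norm] at hy
  have hmem : ∀ s ∈ Icc (0 : ℝ) 1, y₀ + s • (y - y₀) ∈ closedBall y₀ r := by
    intro s hs
    rw [mem_closedBall, dist_eq_norm, add_sub_cancel_left, norm_smul, Real.norm_eq_abs,
      abs_of_nonneg hs.1]
    calc s * ‖y - y₀‖ ≤ 1 * ‖y - y₀‖ := mul_le_mul_of_nonneg_right hs.2 (norm_nonneg _)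
      _ ≤ r := by rw [one_mul]; exact hr
  have hd : ∀ s ∈ Icc (0 : ℝ) 1, HasDerivAt (fun s : ℝ => f (y₀ + s • (y - y₀)))
      (L (y₀ + s • (y - y₀)) (y - y₀)) s := by
    intro s hs
    have h1 : HasDerivAt (fun s : ℝ => y₀ + s • (y - y₀)) (y - y₀) s := by
      have := ((hasDerivAt_id s).smul_const (y - y₀)).const_add y₀
      simpa using this
    exact (hf _ (hmem s hs)).1.comp_hasDerivAt s h1
  have hg := eq_zero_of_abs_deriv_le_mul_abs_self_of_eq_zero_right
    (f := fun s : ℝ => f (y₀ + s • (y - y₀)))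
    (f' := fun s : ℝ => L (y₀ + s • (y - y₀)) (y - y₀)) (K := c * r) (a := 0) (b := 1)
    (fun s hs => (hd s hs).continuousAt.continuousWithinAt)
    (fun s hs => (hd s ⟨hs.1, hs.2.le⟩).hasDerivWithinAt) (by simpa using h0)
    (fun s hs => by
      have hs' : s ∈ Icc (0 : ℝ) 1 := ⟨hs.1, hs.2.le⟩
      have h1 := (hf _ (hmem s hs')).2
      have h2 := (le_abs_self _).trans (hK _ (hmem s hs'))
      have h3 : ‖L (y₀ + s • (y - y₀))‖ ≤ c * ‖f (y₀ + s • (y - y₀))‖ :=
        h1.trans (mul_le_mul_of_nonneg_right h2 (norm_nonneg _))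
      calc ‖L (y₀ + s • (y - y₀)) (y - y₀)‖
          ≤ ‖L (y₀ + s • (y - y₀))‖ * ‖y - y₀‖ := ContinuousLinearMap.le_opNorm _ _
        _ ≤ (c * ‖f (y₀ + s • (y - y₀))‖) * r :=
            mul_le_mul h3 hr (norm_nonneg _) (le_trans (norm_nonneg _) h3)
        _ = c * r * ‖f (y₀ + s • (y - y₀))‖ := by ring)
  have := hg 1 ⟨zero_le_one, le_rfl⟩
  simpa using this

theorem t_UNI : S_UNI := by
  intro q F _ _ f L K hK hf hex
  obtain ⟨y₀, hy0, hfy0⟩ := hex
  have hrank : 1 < Module.rank ℝ (E q) := by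
    rw [← Module.finrank_eq_rank, finrank_euclideanSpace_fin]
    exact_mod_cast (by omega : 1 < q + 2)
  have hc : IsPreconnected ({0}ᶜ : Set (E q)) :=
    (isConnected_compl_singleton_of_one_lt_rank hrank 0).isPreconnected
  set u : Set (E q) := {y | y ≠ 0 ∧ f y = 0} with hu
  have hopen : IsOpen u := by
    rw [isOpen_iff_mem_nhds]
    rintro y ⟨hy, hfy⟩
    have hn : 0 < ‖y‖ := norm_pos_iff.2 hy
    have hsub : closedBall y (‖y‖ / 2) ⊆ {y | y ≠ 0} := by
      intro z hz h0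
      rw [mem_closedBall, dist_eq_norm] at hz
      rw [h0, zero_sub, norm_neg] at hz
      linarith
    obtain ⟨c, hcK⟩ := (isCompact_closedBall y (‖y‖ / 2)).exists_bound_of_continuousOn
      (hK.mono hsub)
    have h1 := loc f L K y (‖y‖ / 2) c (fun z hz => hf z (hsub hz)) hcK hfy
    refine mem_of_superset (closedBall_mem_nhds y (by positivity : 0 < ‖y‖ / 2)) ?_
    intro z hz
    exact ⟨hsub hz, h1 z hz⟩
  have hsub : ({0}ᶜ : Set (E q)) ⊆ u := by
    refine hc.subset_of_closure_inter_subset hopen ⟨y₀, hy0, hy0, hfy0⟩ ?_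
    rintro y ⟨hy, hy0'⟩
    refine ⟨hy0', ?_⟩
    have h1 := mem_closure_image (hf y hy0').1.continuousAt hy
    have h2 : f '' u ⊆ {0} := by
      rintro _ ⟨z, hz, rfl⟩
      exact hz.2
    have h3 := closure_mono h2 h1
    rw [closure_singleton] at h3
    exact h3
  intro y hy
  exact (hsub hy).2

end Pool.Agent.W395.LG
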