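import Pool.Agent.W290.LG.Stm2
import Pool.Agent.H881R2.Mat.PolyInst

/-!
# Project LG: the system of constraints is computed in polynomial time
-/

set_option autoImplicit false

namespace Pool.Agent.W395.LG

open Pool.Agent Pool.Agent.NPC Pool.Agent.W290.LG

section

variable {α : Type} [TEnc α]

theorem poly_rad {L : α → List (List ℕ)} (hL : NPC.Poly L) : NPC.Poly (fun x => rad (L x)) := by
  unfold rad; fun_prop

theorem poly_ix {N a b c d e f : α → ℕ} (hN : NPC.Poly N) (ha : NPC.Poly a) (hb : NPC.Poly b)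
    (hc : NPC.Poly c) (hd : NPC.Poly d) (he : NPC.Poly e) (hf : NPC.Poly f) :
    NPC.Poly (fun x => ix (N x) (a x) (b x) (c x) (d x) (e x) (f x)) := by
  unfold ix; fun_prop

attribute [local fun_prop] poly_rad poly_ix

theorem poly_vC {N b j k : α → ℕ} (hN : NPC.Poly N) (hb : NPC.Poly b) (hj : NPC.Poly j)
    (hk : NPC.Poly k) : NPC.Poly (fun x => vC (N x) (b x) (j x) (k x)) := by
  unfold vC; fun_prop

theorem poly_vP {N b b' j m t : α → ℕ} (hN : NPC.Poly N) (hb : NPC.Poly b) (hb' : NPC.Poly b')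
    (hj : NPC.Poly j) (hm : NPC.Poly m) (ht : NPC.Poly t) :
    NPC.Poly (fun x => vP (N x) (b x) (b' x) (j x) (m x) (t x)) := by
  unfold vP; fun_prop

theorem poly_vS {N b b' j m t : α → ℕ} (hN : NPC.Poly N) (hb : NPC.Poly b) (hb' : NPC.Poly b')
    (hj : NPC.Poly j) (hm : NPC.Poly m) (ht : NPC.Poly t) :
    NPC.Poly (fun x => vS (N x) (b x) (b' x) (j x) (m x) (t x)) := by
  unfold vS; fun_prop

theorem poly_vY {N b j k : α → ℕ} (hN : NPC.Poly N) (hb : NPC.Poly b) (hj : NPC.Poly j)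
    (hk : NPC.Poly k) : NPC.Poly (fun x => vY (N x) (b x) (j x) (k x)) := by
  unfold vY; fun_prop

theorem poly_vZ {N : α → ℕ} (hN : NPC.Poly N) : NPC.Poly (fun x => vZ (N x)) := by
  unfold vZ; fun_prop

theorem poly_vO {N : α → ℕ} (hN : NPC.Poly N) : NPC.Poly (fun x => vO (N x)) := by
  unfold vO; fun_prop

theorem poly_exch {L : α → List (List ℕ)} {l : α → List ℕ} {j k : α → ℕ} (hL : NPC.Poly L)
    (hl : NPC.Poly l) (hj : NPC.Poly j) (hk : NPC.Poly k) :
    NPC.Poly (fun x => exch (L x) (l x) (j x) (k x)) := by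
  unfold exch; fun_prop

attribute [local fun_prop] poly_vC poly_vP poly_vS poly_vY poly_vZ poly_vO poly_exch
  ER.poly_con_one ER.poly_con_add ER.poly_con_mul

theorem poly_cEl {L : α → List (List ℕ)} {l : α → List ℕ} {b j k : α → ℕ} (hL : NPC.Poly L)
    (hl : NPC.Poly l) (hb : NPC.Poly b) (hj : NPC.Poly j) (hk : NPC.Poly k) :
    NPC.Poly (fun x => cEl (L x) (l x) (b x) (j x) (k x)) := by
  unfold cEl; fun_prop

theorem poly_cTr {L : α → List (List ℕ)} {l : α → List ℕ} {b b' j m : α → ℕ} (hL : NPC.Poly L)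
    (hl : NPC.Poly l) (hb : NPC.Poly b) (hb' : NPC.Poly b') (hj : NPC.Poly j)
    (hm : NPC.Poly m) : NPC.Poly (fun x => cTr (L x) (l x) (b x) (b' x) (j x) (m x)) := by
  unfold cTr; fun_prop

end

attribute [local fun_prop] poly_vC poly_vZ poly_vO poly_rad
  ER.poly_con_one ER.poly_con_add ER.poly_con_mul poly_cEl poly_cTr

theorem t_P : Pool.Agent.W290.LG.S_P := by
  unfold S_P sysL
  fun_prop

end Pool.Agent.W395.LG
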